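import Pool.Agent.Helper58.FLP.BDef

/-!
# Bridge: the two forms of the mapping presheaves
-/

open CategoryTheory MonoidalCategory CartesianMonoidalCategory Opposite

set_option autoImplicit false

namespace Pool.Agent.Helper36.FLPHm

open FL (SP Wr)
open FLP

noncomputable section

variable {C : Type} [SmallCategory C]

/-- The inclusion of the explicit mapping presheaf. -/
def incl (X : SP (Wr C)) (x y : FL.Vt X) : FL.Hm X x y ⟶ mor X where
  app _ :=
    { app := fun _ => ↾ fun z => z.1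
      naturality := fun _ _ _ => rfl }
  naturality _ _ _ := rfl

/-- The map to the point. -/
def trm (X : SP (Wr C)) (x y : FL.Vt X) : FL.Hm X x y ⟶ FLP.cst C (𝟙_ SSet.{0}) where
  app _ := toUnit _
  naturality _ _ _ := toUnit_unique _ _

lemma pt_ext {X : SP C} (f g : X ⟶ FLP.cst C (𝟙_ SSet.{0})) : f = g :=
  NatTrans.ext (funext fun _ => toUnit_unique _ _)

lemma vtx_eq (c : C) (i : Fin 2) : FLP.vtx c i = FL.vtx (FL.seg c) i :=
  FL.Wr.hom_ext' rfl fun (j : Fin 0) _ _ _ => j.elim0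

lemma ends_eq (X : SP (Wr C)) (c : Cᵒᵖ) : (FLP.ends X).app c = FL.ends X c.unop := by
  show lift (X.map (FLP.vtx c.unop 0).op) (X.map (FLP.vtx c.unop 1).op) =
    lift (X.map (FL.vtx (FL.seg c.unop) 0).op) (X.map (FL.vtx (FL.seg c.unop) 1).op)
  rw [vtx_eq, vtx_eq]

lemma pair_elt (X : SP (Wr C)) (x y : FL.Vt X) (c : Cᵒᵖ) (k : SimplexCategoryᵒᵖ)
    (z : (𝟙_ SSet.{0}).obj k) :
    ((FLP.pair X x y).app c).app k z =
      FL.cst (X.obj (op Wr.pt) ⊗ X.obj (op Wr.pt)) (x, y) k := rfl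

lemma sq (X : SP (Wr C)) (x y : FL.Vt X) :
    incl X x y ≫ FLP.ends X = trm X x y ≫ FLP.pair X x y := by
  refine NatTrans.ext (funext fun c => ?_)
  show (incl X x y).app c ≫ (FLP.ends X).app c = _
  rw [ends_eq]
  refine NatTrans.ext (funext fun k => ConcreteCategory.hom_ext _ _ fun z => ?_)
  exact z.2

lemma sq_elt {X : SP (Wr C)} {x y : FL.Vt X} {T : SP C} (f : T ⟶ mor X)
    (g : T ⟶ FLP.cst C (𝟙_ SSet.{0})) (h : f ≫ FLP.ends X = g ≫ FLP.pair X x y) (c : Cᵒᵖ)
    (k : SimplexCategoryᵒᵖ) (t : (T.obj c).obj k) :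
    (FL.ends X c.unop).app k ((f.app c).app k t) =
      FL.cst (X.obj (op Wr.pt) ⊗ X.obj (op Wr.pt)) (x, y) k := by
  have h1 := NatTrans.congr_app h c
  have h2 : f.app c ≫ FL.ends X c.unop = g.app c ≫ (FLP.pair X x y).app c := by
    rw [← ends_eq]; exact h1
  exact ConcreteCategory.congr_hom (NatTrans.congr_app h2 k) t

/-- The lift of a cone. -/
def lft {X : SP (Wr C)} {x y : FL.Vt X} {T : SP C} (f : T ⟶ mor X)
    (g : T ⟶ FLP.cst C (𝟙_ SSet.{0})) (h : f ≫ FLP.ends X = g ≫ FLP.pair X x y) :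
    T ⟶ FL.Hm X x y where
  app c :=
    { app := fun k => ↾ fun t => ⟨(f.app c).app k t, sq_elt f g h c k t⟩
      naturality := fun k l α => by
        refine ConcreteCategory.hom_ext _ _ fun t => ?_
        exact Subtype.ext (FL.hom_natk f α t) }
  naturality c c' u := by
    refine NatTrans.ext (funext fun k => ConcreteCategory.hom_ext _ _ fun t => ?_)
    exact Subtype.ext (FL.hom_nat f u t)

lemma incl_mono {X : SP (Wr C)} {x y : FL.Vt X} {T : SP C} {f g : T ⟶ FL.Hm X x y}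
    (h : f ≫ incl X x y = g ≫ incl X x y) : f = g := by
  refine NatTrans.ext (funext fun c => NatTrans.ext (funext fun k =>
    ConcreteCategory.hom_ext _ _ fun t => Subtype.ext ?_))
  exact ConcreteCategory.congr_hom (NatTrans.congr_app (NatTrans.congr_app h c) k) t

lemma isPb (X : SP (Wr C)) (x y : FL.Vt X) :
    IsPullback (incl X x y) (trm X x y) (FLP.ends X) (FLP.pair X x y) :=
  IsPullback.of_isLimit' ⟨sq X x y⟩ (Limits.PullbackCone.IsLimit.mk _
    (fun s => lft s.fst s.snd s.condition)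
    (fun _ => rfl) (fun _ => pt_ext _ _)
    (fun _ _ h _ => incl_mono h))

/-- The isomorphism. -/
def hmIso (X : SP (Wr C)) (x y : FL.Vt X) : FL.Hm X x y ≅ FLP.Hm X x y :=
  (isPb X x y).isoPullback

theorem exists_hmIso : ∃ e : ∀ (X : SP (Wr C)) (x y : FL.Vt X), FL.Hm X x y ≅ FLP.Hm X x y,
    ∀ {X Y : SP (Wr C)} (f : X ⟶ Y) (x y : FL.Vt X),
      FL.HmMap f x y ≫ (e Y (FL.vtMap f x) (FL.vtMap f y)).hom =
        (e X x y).hom ≫ FLP.HmMap f x y := by
  refine ⟨hmIso, ?_⟩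
  intro X Y f x y
  refine Limits.pullback.hom_ext ?_ (pt_ext _ _)
  have h1 : (hmIso Y (FL.vtMap f x) (FL.vtMap f y)).hom ≫
      Limits.pullback.fst (FLP.ends Y) (FLP.pair Y (FL.vtMap f x) (FL.vtMap f y)) =
      incl Y (FL.vtMap f x) (FL.vtMap f y) := IsPullback.isoPullback_hom_fst _
  have h2 : (hmIso X x y).hom ≫ Limits.pullback.fst (FLP.ends X) (FLP.pair X x y) =
      incl X x y := IsPullback.isoPullback_hom_fst _
  have h3 : FLP.HmMap f x y ≫
      Limits.pullback.fst (FLP.ends Y) (FLP.pair Y (FL.vtMap f x) (FL.vtMap f y)) =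
      Limits.pullback.fst (FLP.ends X) (FLP.pair X x y) ≫ morm f :=
    Limits.pullback.lift_fst _ _ _
  have e1 := (Category.assoc (FL.HmMap f x y) _ _).trans
    (congrArg (fun t => FL.HmMap f x y ≫ t) h1)
  have e2 := (Category.assoc (hmIso X x y).hom _ _).trans
    ((congrArg (fun t => (hmIso X x y).hom ≫ t) h3).trans
      ((Category.assoc _ _ _).symm.trans (congrArg (fun t => t ≫ morm f) h2)))
  have e3 : FL.HmMap f x y ≫ incl Y (FL.vtMap f x) (FL.vtMap f y) = incl X x y ≫ morm f := rfl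
  exact e1.trans (e3.trans e2.symm)

end

end Pool.Agent.Helper36.FLPHm
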